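import Pool.Agent.H67.EndQ

namespace Pool.Agent.Results.MP_4b0123_al.Epigroup

open Pool.Agent.H67.EndQ

universe u

theorem result (S : Type u) [AddCommSemigroup S] [Nonempty S]
    (hS : ∀ a : S, ∃ (n : ℕ) (b : S), rep n a + rep n a + b = rep n a) :
    (∀ f g h : S →ₙ+ S, f + g = f + h → g = h) ↔
      ∃ o : S, (∀ a, o + a = a) ∧ ∀ a, ∃ b, a + b = o := by
  constructor
  · intro hc
    have h1 : ∀ e : S, e + e = e → ∀ x, e + x = x := fun e he x => by
      let k : S →ₙ+ S := ⟨fun _ => e, fun _ _ => he.symm⟩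
      have : k + (k + AddHom.id S) = k + AddHom.id S := by
        ext y
        show e + (e + y) = e + y
        rw [← add_assoc, he]
      exact DFunLike.congr_fun (hc _ _ _ this) x
    have h2 : ∀ a : S, ∃ b, (a + b) + (a + b) = a + b := fun a => by
      obtain ⟨n, b, h⟩ := hS a
      have h3 : (rep n a + b) + (rep n a + b) = rep n a + b := by
        rw [add_add_add_comm, ← add_assoc, h]
      cases n with
      | zero => exact ⟨b, h3⟩
      | succ n =>
        refine ⟨rep n a + b, ?_⟩
        rwa [rep, add_comm (rep n a) a, add_assoc a (rep n a) b] at h3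
    obtain ⟨b0, h0⟩ := h2 (Classical.arbitrary S)
    refine ⟨_, h1 _ h0, fun a => ?_⟩
    obtain ⟨b, hb⟩ := h2 a
    exact ⟨b, (h1 _ h0 _).symm.trans ((add_comm _ _).trans (h1 _ hb _))⟩
  · rintro ⟨o, h1, h2⟩ f g h hfg
    ext x
    obtain ⟨b, hb⟩ := h2 (f x)
    have h3 : f x + g x = f x + h x := DFunLike.congr_fun hfg x
    rw [← h1 (g x), ← h1 (h x), ← hb, add_comm (f x) b, add_assoc, add_assoc, h3]

end Pool.Agent.Results.MP_4b0123_al.Epigroup
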