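import Pool.Agent.H67.EndQ

namespace Pool.Agent.Results.MP_4b0123_al.Graded

open Pool.Agent.H67.EndQ

universe u

theorem result (S : Type u) [AddCommSemigroup S] [Nonempty S]
    (hfg : ∃ X : Finset S, AddSubsemigroup.closure (X : Set S) = ⊤)
    (χ : S →ₙ+ ℕ) (hχ : ∀ x, 0 < χ x) :
    (∀ f g h : S →ₙ+ S, f + g = f + h → g = h) ↔
      ∀ g h : S →ₙ+ S, (∀ x, ∃ a, a + g x = a + h x) → g = h := by
  classical
  refine ⟨fun hc g h hgh => ?_, fun H f g h hfg =>
    H g h fun x => ⟨f x, DFunLike.congr_fun hfg x⟩⟩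
  obtain ⟨X, hX⟩ := hfg
  have h1 : ∀ Y : Finset S, ∃ a, ∀ x ∈ Y, a + g x = a + h x := fun Y => by
    induction Y using Finset.induction_on with
    | empty => exact ⟨Classical.arbitrary S, by simp⟩
    | insert y Y _ ih =>
      obtain ⟨a, ha⟩ := ih
      obtain ⟨b, hb⟩ := hgh y
      refine ⟨a + b, fun x hx => ?_⟩
      rcases Finset.mem_insert.1 hx with rfl | hx
      · rw [add_assoc, add_assoc, hb]
      · rw [add_comm a b, add_assoc, add_assoc, ha x hx]
  obtain ⟨a, ha⟩ := h1 X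
  let f : S →ₙ+ S := ⟨fun x => rep (χ x - 1) a, fun x y => by
    apply WithZero.coe_injective
    rw [WithZero.coe_add, coe_rep, coe_rep, coe_rep, ← add_nsmul, map_add]
    have := hχ x
    have := hχ y
    congr 1
    omega⟩
  refine hc f g h (AddHom.eq_of_eqOn_dense hX fun x hx => ?_)
  show rep (χ x - 1) a + g x = rep (χ x - 1) a + h x
  cases χ x - 1 with
  | zero => exact ha x hx
  | succ n => rw [rep, add_assoc, add_assoc, ha x hx]

end Pool.Agent.Results.MP_4b0123_al.Graded
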