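import Pool.Agent.H67.EndQ

namespace Pool.Agent.Results.MP_4b0123_al.NonCancel

open Pool.Agent.H67.EndQ

/-- The integers from four on, with eleven doubled. -/
def E : Type := {p : ℕ × Bool // 4 ≤ p.1 ∧ (p.2 = true → p.1 = 11)}

/-- Degree. -/
def d (x : E) : ℕ := x.1.1

theorem ext_d {x y : E} (h : d x = d y) (h' : d x ≠ 11) : x = y := by
  obtain ⟨⟨a, p⟩, h1, h2⟩ := x
  obtain ⟨⟨b, q⟩, h3, h4⟩ := y
  simp only [d] at h h'
  subst h
  cases p <;> cases q
  · rfl
  · exact absurd (h4 rfl) h'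
  · exact absurd (h2 rfl) h'
  · rfl

instance : Add E := ⟨fun a b => ⟨(d a + d b, decide (d a + d b = 11 ∧ (d a = 5 ∨ d a = 6))),
  le_add_right a.2.1, fun h => (of_decide_eq_true h).1⟩⟩

theorem d_add (a b : E) : d (a + b) = d a + d b := rfl

theorem d_ge (a : E) : 4 ≤ d a := a.2.1

instance : AddCommSemigroup E where
  add_assoc a b c := ext_d (by simp only [d_add]; omega) (by
    have := d_ge a; have := d_ge b; have := d_ge c
    simp only [d_add]; omega)
  add_comm a b := Subtype.ext (Prod.ext (Nat.add_comm _ _) (by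
    show decide (d a + d b = 11 ∧ (d a = 5 ∨ d a = 6)) =
      decide (d b + d a = 11 ∧ (d b = 5 ∨ d b = 6))
    exact decide_eq_decide.2 (by omega)))

/-- The unflagged element of degree `n + 4`. -/
def e (n : ℕ) : E := ⟨(n + 4, false), by simp, by simp⟩

theorem d_e (n : ℕ) : d (e n) = n + 4 := rfl

theorem d_rep (n : ℕ) (a : E) : d (rep n a) = (n + 1) * d a := by
  induction n with
  | zero => simp [rep]
  | succ n ih => rw [rep, d_add, ih]; ring

theorem cases11 (x : E) (h : d x = 11) : x = e 0 + e 3 ∨ x = e 1 + e 2 := by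
  obtain ⟨⟨a, p⟩, h1, h2⟩ := x
  simp only [d] at h
  subst h
  cases p
  · left; rfl
  · right; rfl

theorem deg (f : E →ₙ+ E) : ∃ c, ∀ x, d (f x) = c * d x := by
  have h1 : ∀ x y, d x * d (f y) = d y * d (f x) := fun x y => by
    have hx := d_ge x
    have hy := d_ge y
    obtain ⟨m, hm⟩ : ∃ m, d x = m + 1 := ⟨d x - 1, by omega⟩
    obtain ⟨n, hn⟩ : ∃ n, d y = n + 1 := ⟨d y - 1, by omega⟩
    have : rep m y = rep n x := ext_d (by rw [d_rep, d_rep, ← hm, ← hn, mul_comm]) (by
      rw [d_rep, ← hm]; nlinarith)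
    have h2 := congrArg (fun z => d (f z)) this
    simp only [map_rep, d_rep] at h2
    rw [hm, hn, h2]
  have h2 := h1 (e 0) (e 1)
  simp only [d_e] at h2
  refine ⟨d (f (e 1)) - d (f (e 0)), fun x => ?_⟩
  have h3 := h1 (e 0) x
  simp only [d_e] at h3
  have h4 : d (f (e 0)) = 4 * (d (f (e 1)) - d (f (e 0))) := by omega
  rw [h4] at h3
  nlinarith

theorem eq_of_deg (g h : E →ₙ+ E) (H : ∀ x, d (g x) = d (h x)) : g = h := by
  obtain ⟨c, hc⟩ := deg g
  have h1 : ∀ x, d x ≠ 11 → g x = h x := fun x hx => ext_d (H x) (by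
    rw [hc]
    intro h0
    have h2 := d_ge x
    have h3 : d x ∣ 11 := ⟨c, by rw [← h0, mul_comm]⟩
    rcases (Nat.dvd_prime (by norm_num)).1 h3 with h4 | h4 <;> omega)
  ext x
  by_cases hx : d x = 11
  · rcases cases11 x hx with rfl | rfl <;>
      rw [map_add, map_add, h1 _ (by simp [d_e]), h1 _ (by simp [d_e])]
  · exact h1 x hx

theorem fg : AddSubsemigroup.closure ({e 0, e 1, e 2, e 3} : Set E) = ⊤ := by
  have h : ∀ n, e n ∈ AddSubsemigroup.closure ({e 0, e 1, e 2, e 3} : Set E) := by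
    intro n
    induction n using Nat.strong_induction_on with
    | _ n ih =>
      by_cases hn : n < 4
      · apply AddSubsemigroup.subset_closure
        interval_cases n <;> simp
      · obtain ⟨m, rfl⟩ : ∃ m, n = m + 4 := ⟨n - 4, by omega⟩
        have : e (m + 4) = e 0 + e m := Subtype.ext (Prod.ext (by
          show m + 4 + 4 = 0 + 4 + (m + 4)
          omega) (by
          show false = decide (d (e 0) + d (e m) = 11 ∧ (d (e 0) = 5 ∨ d (e 0) = 6))
          simp [d_e]))
        rw [this]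
        exact add_mem (ih 0 (by omega)) (ih m (by omega))
  rw [eq_top_iff]
  intro x _
  by_cases hx : d x = 11
  · rcases cases11 x hx with rfl | rfl <;> exact add_mem (h _) (h _)
  · have := d_ge x
    rw [ext_d (show d x = d (e (d x - 4)) by rw [d_e]; omega) hx]
    exact h _

theorem result : ∃ (S : Type) (_ : AddCommSemigroup S),
    (∃ X : Finset S, AddSubsemigroup.closure (X : Set S) = ⊤) ∧
    (∀ f g h : S →ₙ+ S, f + g = f + h → g = h) ∧
    ∃ a b c : S, a + b = a + c ∧ b ≠ c := by
  classical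
  refine ⟨E, inferInstance, ⟨{e 0, e 1, e 2, e 3}, by simpa using fg⟩, fun f g h H => ?_,
    e 0, e 0 + e 3, e 1 + e 2, ext_d rfl (by decide), fun h => ?_⟩
  · refine eq_of_deg g h fun x => ?_
    have := congrArg d (DFunLike.congr_fun H x)
    simp only [AddHom.add_apply, d_add] at this
    omega
  · exact absurd (congrArg (fun x : E => x.1.2) h) (by decide)

end Pool.Agent.Results.MP_4b0123_al.NonCancel
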